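import Mathlib
import Pool.Agent.H220.TS.Stm

/-!
# Julia's lemma for a semigroup with Denjoy-Wolff point
-/

set_option autoImplicit false

open Set Filter Topology Metric Pool.Agent.H220.TS
open scoped ComplexConjugate

namespace Pool.Agent.H402.TS

theorem normsq_id (z w : ℂ) :
    ‖1 - conj z * w‖ ^ 2 = ‖z - w‖ ^ 2 + (1 - ‖z‖ ^ 2) * (1 - ‖w‖ ^ 2) := by
  rw [← Complex.normSq_eq_norm_sq, ← Complex.normSq_eq_norm_sq, ← Complex.normSq_eq_norm_sq,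
    ← Complex.normSq_eq_norm_sq]
  simp only [Complex.normSq_apply, Complex.sub_re, Complex.sub_im, Complex.mul_re, Complex.mul_im,
    Complex.conj_re, Complex.conj_im, Complex.one_re, Complex.one_im]
  ring

theorem one_sub_pos {z : ℂ} (hz : z ∈ D) : 0 < 1 - ‖z‖ ^ 2 := by
  have h1 : ‖z‖ < 1 := by
    have := mem_ball_zero_iff.1 hz
    exact this
  nlinarith [norm_nonneg z]

theorem den_pos {z w : ℂ} (hz : z ∈ D) (hw : w ∈ D) : 0 < ‖1 - conj z * w‖ ^ 2 := by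
  rw [normsq_id]
  have := mul_pos (one_sub_pos hz) (one_sub_pos hw)
  positivity

theorem psi_sq {z w : ℂ} (hz : z ∈ D) (hw : w ∈ D) :
    psi z w ^ 2 = 1 - (1 - ‖z‖ ^ 2) * (1 - ‖w‖ ^ 2) / ‖1 - conj z * w‖ ^ 2 := by
  have h := den_pos hz hw
  unfold psi
  rw [norm_div, div_pow, eq_sub_iff_add_eq, ← add_div, ← normsq_id, div_self h.ne']

theorem s_julia (h : S_pick) : S_julia := by
  intro φ τ hφ hτ t ht z hz
  rcases ht.eq_or_lt with rfl | ht0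
  · rw [hφ.zero z hz]
  have h0 : (0 : ℂ) ∈ D := mem_ball_self one_pos
  have hkt : ∀ k : ℕ, 0 ≤ (k : ℝ) * t := fun k => by positivity
  obtain ⟨Z, hZ⟩ : ∃ Z : ℕ → ℂ, ∀ k, Z k = φ (k * t) 0 := ⟨_, fun _ => rfl⟩
  have hZD : ∀ k, Z k ∈ D := fun k => by rw [hZ]; exact hφ.maps _ (hkt k) h0
  have hZs : ∀ k, φ t (Z k) = Z (k + 1) := fun k => by
    rw [hZ, hZ, ← hφ.add t _ ht (hkt k) 0 h0]
    congr 1
    push_cast
    ring
  have hlim : Tendsto Z atTop (𝓝 τ) := by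
    have h1 : Tendsto (fun s => φ s 0) atTop (𝓝 τ) := hτ.2.tendsto_at h0
    have h2 : Tendsto (fun k : ℕ => (k : ℝ) * t) atTop atTop :=
      tendsto_natCast_atTop_atTop.atTop_mul_const ht0
    exact (h1.comp h2).congr fun k => (hZ k).symm
  have hfD : φ t z ∈ D := hφ.maps t ht hz
  -- the sequence `d`
  have hd0 : ∀ k, 0 < 1 - ‖Z k‖ ^ 2 := fun k => one_sub_pos (hZD k)
  have hdl : Tendsto (fun k => 1 - ‖Z k‖ ^ 2) atTop (𝓝 0) := by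
    have h1 : Tendsto (fun k => 1 - ‖Z k‖ ^ 2) atTop (𝓝 (1 - ‖τ‖ ^ 2)) :=
      tendsto_const_nhds.sub (hlim.norm.pow 2)
    rwa [hτ.1, one_pow, sub_self] at h1
  have hfreq : ∃ᶠ k in atTop, 1 - ‖Z (k + 1)‖ ^ 2 ≤ 1 - ‖Z k‖ ^ 2 := by
    intro hcon
    obtain ⟨N, hN⟩ := eventually_atTop.1 hcon
    have hmono : ∀ k, N ≤ k → 1 - ‖Z N‖ ^ 2 ≤ 1 - ‖Z k‖ ^ 2 := by
      intro k hk
      induction k, hk using Nat.le_induction with
      | base => exact le_rfl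
      | succ k hk ih => exact ih.trans (not_le.1 (hN k hk)).le
    have := ge_of_tendsto hdl (eventually_atTop.2 ⟨N, hmono⟩)
    exact absurd (hd0 N) (not_lt.2 this)
  -- the inequality of Schwarz and Pick
  have hpick : ∀ k, (1 - ‖z‖ ^ 2) * (1 - ‖Z k‖ ^ 2) / ‖1 - conj z * Z k‖ ^ 2 ≤
      (1 - ‖φ t z‖ ^ 2) * (1 - ‖Z (k + 1)‖ ^ 2) / ‖1 - conj (φ t z) * Z (k + 1)‖ ^ 2 := by
    intro k
    have h1 := h.2 (φ t) (hφ.holo t ht) (hφ.maps t ht) z hz (Z k) (hZD k)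
    rw [hZs] at h1
    have h2 : psi (φ t z) (Z (k + 1)) ^ 2 ≤ psi z (Z k) ^ 2 :=
      pow_le_pow_left₀ (norm_nonneg _) h1 2
    rw [psi_sq hfD (hZD _), psi_sq hz (hZD _)] at h2
    linarith
  have hpick2 : ∃ᶠ k in atTop, (1 - ‖z‖ ^ 2) / ‖1 - conj z * Z k‖ ^ 2 ≤
      (1 - ‖φ t z‖ ^ 2) / ‖1 - conj (φ t z) * Z (k + 1)‖ ^ 2 := by
    refine hfreq.mono fun k hk => ?_
    have h1 := hpick k
    have hA : 0 ≤ (1 - ‖φ t z‖ ^ 2) / ‖1 - conj (φ t z) * Z (k + 1)‖ ^ 2 :=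
      div_nonneg (one_sub_pos hfD).le (den_pos hfD (hZD _)).le
    rw [mul_div_right_comm, mul_div_right_comm] at h1
    have h2 := h1.trans (mul_le_mul_of_nonneg_left hk hA)
    exact le_of_mul_le_mul_right h2 (hd0 k)
  -- the limits
  have hnorm : ∀ w : ℂ, ‖1 - conj w * τ‖ ^ 2 = ‖τ - w‖ ^ 2 := fun w => by
    rw [normsq_id, hτ.1, one_pow, sub_self, mul_zero, add_zero, norm_sub_rev]
  have hne : ∀ w ∈ D, ‖τ - w‖ ^ 2 ≠ 0 := by
    intro w hw h1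
    have h2 : τ = w := sub_eq_zero.1 (norm_eq_zero.1 (pow_eq_zero_iff (two_ne_zero)|>.1 h1))
    have h3 : ‖w‖ < 1 := mem_ball_zero_iff.1 hw
    rw [← h2, hτ.1] at h3
    exact lt_irrefl _ h3
  have hl1 : Tendsto (fun k => (1 - ‖z‖ ^ 2) / ‖1 - conj z * Z k‖ ^ 2) atTop
      (𝓝 ((1 - ‖z‖ ^ 2) / ‖τ - z‖ ^ 2)) := by
    have h1 : Tendsto (fun k => ‖1 - conj z * Z k‖ ^ 2) atTop (𝓝 (‖1 - conj z * τ‖ ^ 2)) :=
      ((tendsto_const_nhds.sub (tendsto_const_nhds.mul hlim)).norm).pow 2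
    rw [hnorm] at h1
    exact tendsto_const_nhds.div h1 (hne z hz)
  have hl2 : Tendsto (fun k => (1 - ‖φ t z‖ ^ 2) / ‖1 - conj (φ t z) * Z (k + 1)‖ ^ 2) atTop
      (𝓝 ((1 - ‖φ t z‖ ^ 2) / ‖τ - φ t z‖ ^ 2)) := by
    have h0 : Tendsto (fun k => Z (k + 1)) atTop (𝓝 τ) := hlim.comp (tendsto_add_atTop_nat 1)
    have h1 : Tendsto (fun k => ‖1 - conj (φ t z) * Z (k + 1)‖ ^ 2) atTop
        (𝓝 (‖1 - conj (φ t z) * τ‖ ^ 2)) :=
      ((tendsto_const_nhds.sub (tendsto_const_nhds.mul h0)).norm).pow 2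
    rw [hnorm] at h1
    exact tendsto_const_nhds.div h1 (hne _ hfD)
  by_contra hcon
  have hev := hl2.eventually_lt hl1 (not_le.1 hcon)
  exact hpick2 (hev.mono fun k hk => not_le.2 hk)

end Pool.Agent.H402.TS
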